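import Pool.Agent.Helper87.CA.Goals

set_option autoImplicit false

open Finset

namespace Pool.Agent.Helper90.CA

open Pool.Agent.Helper87.CA

lemma one (n u : ℕ) (a b : ℤ) (ha : 0 ≤ a) (ha' : a < n) (hb : 0 ≤ b) (hb' : b < n) :
    ((((Finset.Ioo (-(u : ℤ)) (n : ℤ)).filter
      (fun s => (s ≤ a ∧ a < s + u) ∧ (s ≤ b ∧ b < s + u))).card : ℕ) : ℝ)
      = max 0 ((u : ℝ) - |((a - b : ℤ) : ℝ)|) := by
  have h : (Finset.Ioo (-(u : ℤ)) (n : ℤ)).filter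
      (fun s => (s ≤ a ∧ a < s + u) ∧ (s ≤ b ∧ b < s + u))
      = Finset.Ioc (max a b - u) (min a b) := by
    ext s
    simp only [Finset.mem_filter, Finset.mem_Ioo, Finset.mem_Ioc]
    omega
  rw [h, Int.card_Ioc]
  have h2 : (((min a b - (max a b - u)).toNat : ℕ) : ℤ) = max 0 ((u : ℤ) - |a - b|) := by
    rw [Int.ofNat_toNat, max_comm]
    have := max_sub_min_eq_abs a b
    congr 1
    rw [← abs_sub_comm b a, ← this]
    ring
  have h3 : ((((min a b - (max a b - u)).toNat : ℕ) : ℤ) : ℝ)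
      = ((max 0 ((u : ℤ) - |a - b|) : ℤ) : ℝ) := by rw [h2]
  rw [Int.cast_natCast] at h3
  rw [h3]
  push_cast
  rfl

lemma InW_iff (u : ℕ) (t x : ℤ × ℤ) :
    InW u t x ↔ (t.1 ≤ x.1 ∧ x.1 < t.1 + u) ∧ (t.2 ≤ x.2 ∧ x.2 < t.2 + u) := by
  unfold InW
  tauto

lemma two (n u : ℕ) (x y : ℤ × ℤ) (hx : 0 ≤ x.1 ∧ x.1 < n ∧ 0 ≤ x.2 ∧ x.2 < n)
    (hy : 0 ≤ y.1 ∧ y.1 < n ∧ 0 ≤ y.2 ∧ y.2 < n) :
    ((((Om n u).filter (fun t => InW u t x ∧ InW u t y)).card : ℕ) : ℝ) = wt2 u (x - y) := by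
  have h : (Om n u).filter (fun t => InW u t x ∧ InW u t y)
      = ((Finset.Ioo (-(u : ℤ)) (n : ℤ)).filter
          (fun s => (s ≤ x.1 ∧ x.1 < s + u) ∧ (s ≤ y.1 ∧ y.1 < s + u))) ×ˢ
        ((Finset.Ioo (-(u : ℤ)) (n : ℤ)).filter
          (fun s => (s ≤ x.2 ∧ x.2 < s + u) ∧ (s ≤ y.2 ∧ y.2 < s + u))) := by
    ext t
    simp only [Om, Finset.mem_filter, Finset.mem_product, Finset.mem_Ioo, InW_iff]
    tauto
  rw [h, Finset.card_product, Nat.cast_mul, one n u x.1 y.1 hx.1 hx.2.1 hy.1 hy.2.1,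
    one n u x.2 y.2 hx.2.2.1 hx.2.2.2 hy.2.2.1 hy.2.2.2]
  rfl

lemma pt_mem {n : ℕ} (f : Fin n → Fin n) (i : Fin n) :
    0 ≤ (pt f i).1 ∧ (pt f i).1 < n ∧ 0 ≤ (pt f i).2 ∧ (pt f i).2 < n := by
  unfold pt
  have := i.2
  have := (f i).2
  refine ⟨?_, ?_, ?_, ?_⟩ <;> simp

lemma claim1 (n u : ℕ) (f g : Fin n → Fin n) (I J : Finset (Fin n)) :
    ∑ t ∈ Om n u, (cw u f I t : ℝ) * (cw u g J t : ℝ) =
      ∑ i ∈ I, ∑ j ∈ J, wt2 u (pt f i - pt g j) := by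
  have h : ∀ t ∈ Om n u, (cw u f I t : ℝ) * (cw u g J t : ℝ)
      = ∑ i ∈ I, ∑ j ∈ J, (if InW u t (pt f i) ∧ InW u t (pt g j) then (1 : ℝ) else 0) := by
    intro t _
    unfold cw
    rw [Finset.card_filter, Finset.card_filter]
    push_cast
    rw [Finset.sum_mul_sum]
    refine Finset.sum_congr rfl fun i _ => Finset.sum_congr rfl fun j _ => ?_
    by_cases h1 : InW u t (pt f i) <;> by_cases h2 : InW u t (pt g j) <;> simp [h1, h2]
  rw [Finset.sum_congr rfl h, Finset.sum_comm]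
  refine Finset.sum_congr rfl fun i _ => ?_
  rw [Finset.sum_comm]
  refine Finset.sum_congr rfl fun j _ => ?_
  rw [← two n u (pt f i) (pt g j) (pt_mem f i) (pt_mem g j), Finset.card_filter]
  push_cast
  rfl

lemma wt2_zero (u : ℕ) : wt2 u 0 = (u : ℝ) ^ 2 := by
  unfold wt2
  simp
  ring

lemma claim2 (n u : ℕ) (f : Fin n → Fin n) (I : Finset (Fin n)) :
    ∑ t ∈ Om n u, (cw u f I t : ℝ) = I.card * (u : ℝ) ^ 2 := by
  have h : ∀ t ∈ Om n u, (cw u f I t : ℝ)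
      = ∑ i ∈ I, (if InW u t (pt f i) ∧ InW u t (pt f i) then (1 : ℝ) else 0) := by
    intro t _
    unfold cw
    rw [Finset.card_filter]
    push_cast
    refine Finset.sum_congr rfl fun i _ => ?_
    by_cases h1 : InW u t (pt f i) <;> simp [h1]
  rw [Finset.sum_congr rfl h, Finset.sum_comm]
  have h2 : ∀ i ∈ I, ∑ t ∈ Om n u,
      (if InW u t (pt f i) ∧ InW u t (pt f i) then (1 : ℝ) else 0) = (u : ℝ) ^ 2 := by
    intro i _
    have := two n u (pt f i) (pt f i) (pt_mem f i) (pt_mem f i)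
    rw [sub_self, wt2_zero, Finset.card_filter] at this
    rw [← this]
    push_cast
    rfl
  rw [Finset.sum_congr rfl h2, Finset.sum_const, nsmul_eq_mul]

lemma sum1 (u : ℕ) :
    ∑ x ∈ Finset.Ioo (-(u : ℤ)) (u : ℤ), max 0 ((u : ℝ) - |(x : ℝ)|) = (u : ℝ) ^ 2 := by
  have key : ∀ u : ℕ, ∑ x ∈ Finset.Ioo (-(u : ℤ)) (u : ℤ), ((u : ℤ) - |x|) = (u : ℤ) ^ 2 := by
    intro u
    induction u with
    | zero => simp
    | succ u ih =>
      have hI : Finset.Ioo (-((u + 1 : ℕ) : ℤ)) ((u + 1 : ℕ) : ℤ) = Finset.Icc (-(u : ℤ)) u := by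
        ext x
        simp only [Finset.mem_Ioo, Finset.mem_Icc]
        push_cast
        omega
      rw [hI]
      have h1 : ∀ x ∈ Finset.Icc (-(u : ℤ)) u, (((u + 1 : ℕ) : ℤ) - |x|) = ((u : ℤ) - |x|) + 1 := by
        intro x _
        push_cast
        ring
      rw [Finset.sum_congr rfl h1, Finset.sum_add_distrib]
      have h2 : ∑ x ∈ Finset.Icc (-(u : ℤ)) u, ((u : ℤ) - |x|)
          = ∑ x ∈ Finset.Ioo (-(u : ℤ)) u, ((u : ℤ) - |x|) := by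
        symm
        apply Finset.sum_subset Finset.Ioo_subset_Icc_self
        intro x hx hx'
        simp only [Finset.mem_Icc, Finset.mem_Ioo] at hx hx'
        have hx2 : x = -(u : ℤ) ∨ x = u := by omega
        rcases hx2 with h | h
        · rw [h, abs_neg]; simp
        · rw [h]; simp
      rw [h2, ih, Finset.sum_const, Int.card_Icc]
      simp only [nsmul_eq_mul, mul_one]
      have : (((u : ℤ) + 1 - -(u : ℤ)).toNat : ℤ) = 2 * u + 1 := by omega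
      rw [this]
      push_cast
      ring
  have h := key u
  have h' : (((∑ x ∈ Finset.Ioo (-(u : ℤ)) (u : ℤ), ((u : ℤ) - |x|) : ℤ)) : ℝ)
      = (((u : ℤ) ^ 2 : ℤ) : ℝ) := by rw [h]
  push_cast at h'
  rw [← h']
  refine Finset.sum_congr rfl fun x hx => ?_
  apply max_eq_right
  simp only [Finset.mem_Ioo] at hx
  have h3 : |x| ≤ (u : ℤ) := abs_le.mpr ⟨hx.1.le, hx.2.le⟩
  have h4 : ((|x| : ℤ) : ℝ) ≤ ((u : ℤ) : ℝ) := by exact_mod_cast h3
  push_cast at h4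
  linarith

lemma claim3 (u : ℕ) : ∑ δ ∈ Box u, wt2 u δ = (u : ℝ) ^ 4 := by
  unfold Box wt2
  rw [Finset.sum_product]
  have h : ∀ x ∈ Finset.Ioo (-(u : ℤ)) (u : ℤ), ∑ y ∈ Finset.Ioo (-(u : ℤ)) (u : ℤ),
      max 0 ((u : ℝ) - |((x, y).1 : ℝ)|) * max 0 ((u : ℝ) - |((x, y).2 : ℝ)|)
      = max 0 ((u : ℝ) - |(x : ℝ)|) * (u : ℝ) ^ 2 := by
    intro x _
    rw [← sum1 u, Finset.mul_sum]
  rw [Finset.sum_congr rfl h, ← Finset.sum_mul, sum1]
  ring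

theorem gWIN : Pool.Agent.Helper87.CA.G_WIN := ⟨claim1, claim2, claim3⟩

end Pool.Agent.Helper90.CA
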